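import Pool.Agent.Work.MP_223b32_es.Interface

/-! # Block CNTB: the number of bad `w` -/

namespace Pool.Agent.Work.ES

open Finset Polynomial Module Pool.Agent.Work.MP_223b32_ag Pool.Agent.Work.TC
open Pool.Agent.Work.TL (AA Om Stmt_FA)

namespace CNTB

/-- the set of exponents used -/
def TT (k i : ℕ) : Finset ℕ :=
  (Ioc 0 (3 ^ (k - 1))).filter (fun u => 3 ^ (k - i) ∣ u ∧ ¬ 3 ^ (k - i + 1) ∣ u)

theorem TT_card {k i : ℕ} (hk : 1 ≤ k) (h1 : 1 ≤ i) (h2 : i ≤ k) :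
    (TT k i).card = if i = 1 then 1 else 2 * 3 ^ (i - 2) := by
  have e1 : ((Ioc 0 (3 ^ (k - 1))).filter (fun u => 3 ^ (k - i) ∣ u)).card =
      3 ^ (k - 1) / 3 ^ (k - i) := Nat.Ioc_filter_dvd_card_eq_div _ _
  have e2 : ((Ioc 0 (3 ^ (k - 1))).filter (fun u => 3 ^ (k - i + 1) ∣ u)).card =
      3 ^ (k - 1) / 3 ^ (k - i + 1) := Nat.Ioc_filter_dvd_card_eq_div _ _
  have e3 : (((Ioc 0 (3 ^ (k - 1))).filter (fun u => 3 ^ (k - i) ∣ u)).filter
      (fun u => 3 ^ (k - i + 1) ∣ u)) =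
      (Ioc 0 (3 ^ (k - 1))).filter (fun u => 3 ^ (k - i + 1) ∣ u) := by
    ext u
    simp only [mem_filter]
    constructor
    · rintro ⟨⟨a, -⟩, c⟩
      exact ⟨a, c⟩
    · rintro ⟨a, c⟩
      exact ⟨⟨a, dvd_trans (pow_dvd_pow 3 (Nat.le_succ _)) c⟩, c⟩
  have e4 : (((Ioc 0 (3 ^ (k - 1))).filter (fun u => 3 ^ (k - i) ∣ u)).filter
      (fun u => ¬ 3 ^ (k - i + 1) ∣ u)) = TT k i := by
    ext u
    simp only [TT, mem_filter]
    constructor
    · rintro ⟨⟨a, b⟩, c⟩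
      exact ⟨a, b, c⟩
    · rintro ⟨a, b, c⟩
      exact ⟨⟨a, b⟩, c⟩
  have e5 := Finset.card_filter_add_card_filter_not
    (s := (Ioc 0 (3 ^ (k - 1))).filter (fun u => 3 ^ (k - i) ∣ u))
    (fun u => 3 ^ (k - i + 1) ∣ u)
  have e10 : 3 ^ (k - 1) / 3 ^ (k - i) = 3 ^ (i - 1) := by
    rw [Nat.pow_div (by omega) (by norm_num)]
    congr 1
    omega
  rw [e3, e4, e2, e1, e10] at e5
  split_ifs with hi
  · subst hi
    have e7 : 3 ^ (k - 1) / 3 ^ (k - 1 + 1) = 0 :=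
      Nat.div_eq_of_lt (Nat.pow_lt_pow_right (by norm_num) (Nat.lt_succ_self _))
    rw [e7] at e5
    simpa using e5
  · have e11 : 3 ^ (k - 1) / 3 ^ (k - i + 1) = 3 ^ (i - 2) := by
      rw [Nat.pow_div (by omega) (by norm_num)]
      congr 1
      omega
    have e9 : 3 ^ (i - 1) = 3 * 3 ^ (i - 2) := by
      rw [← pow_succ']
      congr 1
      omega
    rw [e11, e9] at e5
    omega

end CNTB

open CNTB in
theorem stmt_CNTB (h1 : Stmt_CNT3) (h2 : Stmt_NCC) (h3 : Stmt_NUM) : Stmt_CNTB := by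
  intro F K _ _ _ _ _ _ hq k hk hfin j hj hjk
  classical
  have hcard : Fintype.card K = Fintype.card F ^ 3 ^ k := by
    rw [← hfin]
    exact Module.card_eq_pow_finrank
  have hq7 : 7 ≤ Fintype.card F := by
    have := Fintype.one_lt_card (α := F)
    omega
  have hmod : Fintype.card K % 3 = 1 := by
    rw [hcard, Nat.pow_mod]
    have : Fintype.card F % 3 = 1 := by omega
    rw [this, one_pow]
    norm_num
  have hN := h2 K hmod
  have hU : 2500 * Fintype.card F ^ (2 * 3 ^ (k - 1)) ≤ Fintype.card K := by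
    rw [hcard]
    have e1 : 3 ^ k = 3 ^ (k - 1) + 2 * 3 ^ (k - 1) := by
      have : 3 ^ k = 3 * 3 ^ (k - 1) := by
        rw [← pow_succ']
        congr 1
        omega
      omega
    rw [e1, pow_add]
    refine Nat.mul_le_mul_right _ ?_
    have e2 : 5 ≤ 3 ^ (k - 1) := by
      calc 5 ≤ 3 ^ 3 := by norm_num
        _ ≤ 3 ^ (k - 1) := Nat.pow_le_pow_right (by norm_num) (by omega)
    calc 2500 ≤ 7 ^ 5 := by norm_num
      _ ≤ 7 ^ 3 ^ (k - 1) := Nat.pow_le_pow_right (by norm_num) e2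
      _ ≤ Fintype.card F ^ 3 ^ (k - 1) := Nat.pow_le_pow_left hq7 _
  have hcnt : ∀ P : K → Prop, Nat.card {w : K // P w} = (univ.filter P).card := by
    intro P
    rw [Nat.card_eq_fintype_card, Fintype.card_subtype]
  have hT : ∀ i, (Nat.card {w : K // NC w ∧
      ∀ u ∈ TT k i, ps F w u = 0 ∧ ps F w (Module.finrank F K + u) = 0} : ℝ) ≤
        2 / 3 * Fintype.card K / 4 ^ (TT k i).card +
          28 * (Fintype.card F : ℝ) ^ (3 ^ (k - 1)) * √(Fintype.card K) := by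
    intro i
    refine h1 F K hq k hfin (3 ^ (k - 1)) hU (TT k i) fun u hu => ?_
    rw [TT, mem_filter, mem_Ioc] at hu
    exact ⟨hu.1.1, hu.1.2⟩
  obtain ⟨Q, hQ⟩ : ∃ Q : ℕ → K → Prop, Q = fun i w => NC w ∧
      ∀ u ∈ TT k i, ps F w u = 0 ∧ ps F w (Module.finrank F K + u) = 0 := ⟨_, rfl⟩
  obtain ⟨B, hB⟩ : ∃ B : K → Prop, B = fun w => NC w ∧ ∃ i, j ≤ i ∧ i ≤ k ∧ BadAt F k i w :=
    ⟨_, rfl⟩
  have hsub : univ.filter B ⊆ (Icc j k).biUnion (fun i => univ.filter (Q i)) := by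
    intro w hw
    rw [mem_filter, hB] at hw
    obtain ⟨-, hnc, i, hi1, hi2, hb⟩ := hw
    rw [mem_biUnion]
    refine ⟨i, mem_Icc.2 ⟨hi1, hi2⟩, ?_⟩
    rw [mem_filter, hQ]
    refine ⟨mem_univ _, hnc, fun u hu => ?_⟩
    rw [TT, mem_filter, mem_Ioc] at hu
    obtain ⟨⟨u1, u2⟩, u3, u4⟩ := hu
    have e1 : 3 ^ k = 3 * 3 ^ (k - 1) := by
      rw [← pow_succ']
      congr 1
      omega
    have e2 : 3 ^ (k + 1) = 3 * 3 ^ k := by rw [← pow_succ']
    have e3 : 0 < 3 ^ (k - 1) := by positivity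
    constructor
    · exact hb u u1 (by omega) u3 u4
    · rw [hfin]
      refine hb _ (by omega) (by omega) ?_ ?_
      · exact (Nat.dvd_add_right (pow_dvd_pow 3 (by omega))).2 u3
      · intro hd
        exact u4 ((Nat.dvd_add_right (pow_dvd_pow 3 (by omega))).1 hd)
  have hT2 : ∀ i, (Nat.card {w : K // Q i w} : ℝ) ≤
        2 / 3 * Fintype.card K / 4 ^ (TT k i).card +
          28 * (Fintype.card F : ℝ) ^ (3 ^ (k - 1)) * √(Fintype.card K) := by
    rw [hQ]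
    exact hT
  have hle : (Nat.card {w : K // B w} : ℝ) ≤
      ∑ i ∈ Icc j k, (Nat.card {w : K // Q i w} : ℝ) := by
    have e1 : (univ.filter B).card ≤ ∑ i ∈ Icc j k, (univ.filter (Q i)).card :=
      (card_le_card hsub).trans card_biUnion_le
    have e2 : Nat.card {w : K // B w} ≤ ∑ i ∈ Icc j k, Nat.card {w : K // Q i w} := by
      rw [hcnt B]
      refine e1.trans (le_of_eq ?_)
      exact sum_congr rfl fun i _ => (hcnt (Q i)).symm
    exact_mod_cast e2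
  have hgoal : (Nat.card {w : K // NC w ∧ ∃ i, j ≤ i ∧ i ≤ k ∧ BadAt F k i w} : ℝ) =
      (Nat.card {w : K // B w} : ℝ) := by rw [hB]
  rw [hgoal]
  refine hle.trans ?_
  have hcR : (Fintype.card K : ℝ) = (Fintype.card F : ℝ) ^ 3 ^ k := by
    rw [hcard]
    push_cast
    rfl
  have hN3 := h3 (Fintype.card F : ℝ) k j (by exact_mod_cast hq7) hk hj hjk
  have hNC : (Nat.card {w : K // NC w} : ℝ) = 2 / 3 * ((Fintype.card F : ℝ) ^ 3 ^ k - 1) := by
    rw [← hcR]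
    have e1 : 1 ≤ Fintype.card K := Fintype.card_pos
    have e2 : (3 : ℝ) * (Nat.card {w : K // NC w} : ℝ) = 2 * ((Fintype.card K : ℝ) - 1) := by
      have := congrArg (Nat.cast : ℕ → ℝ) hN
      push_cast [Nat.cast_sub e1] at this
      exact this
    linarith
  rw [hNC]
  refine le_trans (sum_le_sum fun i hi => ?_) hN3
  rw [mem_Icc] at hi
  have e1 := hT2 i
  rw [TT_card (by omega) (by omega) hi.2, hcR] at e1
  exact e1

end Pool.Agent.Work.ES
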