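import Pool.Agent.Work.MP_223b32_es.Interface

/-! # Block MREL: multiplicative relations for multisets -/

namespace Pool.Agent.Work.ES

open Finset Polynomial Module Pool.Agent.Work.MP_223b32_ag Pool.Agent.Work.TC
open Pool.Agent.Work.TL (AA Om Stmt_FA)

theorem stmt_MREL (h : Stmt_VEC) : Stmt_MREL := by
  intro ρ n q hq hn ι _ _ α' w hw hne _ s hs M hM hrel
  classical
  by_cases hp : ∃ i j t, s = i ::ₘ j ::ₘ t ∧ α' i * α' j = (q : AA) ^ 2
  · exact Or.inl hp
  right
  have hq0 : (q : ℂ) ≠ 0 := by
    have : q ≠ 0 := by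
      rintro rfl
      exact absurd hq (by decide)
    exact_mod_cast this
  -- no pairs
  have hnp : ∀ i ∈ s, ∀ j ∈ s, α' i * α' j ≠ (q : AA) ^ 2 := by
    intro i hi j hj e
    by_cases hij : i = j
    · subst hij
      apply hne i
      have h1 : ρ (α' i) ^ 2 = 1 := by
        have h2 := congrArg ρ e
        rw [map_mul, map_pow, map_natCast] at h2
        obtain ⟨k, hk⟩ := hq
        have h3 : ((q : ℕ) : Om) = 1 := by
          rw [hk]
          push_cast
          have h4 : (2 : Om) = 0 := CharTwo.two_eq_zero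
          rw [h4]
          ring
        rw [h3, one_pow] at h2
        rw [pow_two]
        exact h2
      have h5 : ρ (α' i) = 1 := by
        have h6 : (ρ (α' i) - 1) ^ 2 = 0 := by
          have h4 : (2 : Om) = 0 := CharTwo.two_eq_zero
          have h7 : (ρ (α' i) - 1) ^ 2 = ρ (α' i) ^ 2 - 1 - 2 * (ρ (α' i) - 1) := by ring
          rw [h7, h1, h4]
          ring
        exact sub_eq_zero.1 (pow_eq_zero_iff (two_ne_zero)|>.1 h6)
      rw [h5, one_pow]
    · apply hp
      obtain ⟨t, ht⟩ := Multiset.exists_cons_of_mem hi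
      have hj2 : j ∈ t := by
        rw [ht, Multiset.mem_cons] at hj
        rcases hj with h | h
        · exact absurd h.symm hij
        · exact h
      obtain ⟨t2, ht2⟩ := Multiset.exists_cons_of_mem hj2
      exact ⟨i, j, t2, by rw [ht, ht2], e⟩
  -- division by the gcd
  obtain ⟨i0, hi0⟩ := Multiset.exists_mem_of_ne_zero hs
  set g : ℕ := univ.gcd (fun i => s.count i) with hg
  have hi0c : s.count i0 ≠ 0 := (Multiset.count_pos.2 hi0).ne'
  have hgd : ∀ i, g ∣ s.count i := fun i => Finset.gcd_dvd (mem_univ i)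
  have hgpos : 0 < g := by
    rcases Nat.eq_zero_or_pos g with h0 | h0
    · exfalso
      apply hi0c
      have := hgd i0
      rw [h0] at this
      exact Nat.eq_zero_of_zero_dvd this
    · exact h0
  have hcount : ∀ i, s.count i = s.count i / g * g := fun i => (Nat.div_mul_cancel (hgd i)).symm
  have hgcd : univ.gcd (fun i => s.count i / g) = 1 :=
    Finset.gcd_div_eq_one (mem_univ i0) hi0c
  have hprod : ∀ f : ι → ℂ, ∏ i, f i ^ s.count i = (s.map f).prod := by
    intro f
    rw [Finset.prod_multiset_map_count]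
    symm
    refine Finset.prod_subset (subset_univ _) ?_
    intro i _ hi
    rw [Multiset.mem_toFinset] at hi
    rw [Multiset.count_eq_zero_of_notMem hi, pow_zero]
  have hV := h ρ n q hq hn ι α' w hw (fun i => ((s.count i / g : ℕ) : ℤ)) (g * M)
    (Nat.mul_pos hgpos hM) (by
      rw [pow_mul, ← Finset.prod_pow]
      have h1 : ∏ i, (((α' i : ℂ) / q) ^ ((s.count i / g : ℕ) : ℤ)) ^ g =
          ∏ i, ((α' i : ℂ) / q) ^ s.count i := by
        refine Finset.prod_congr rfl fun i _ => ?_
        rw [zpow_natCast, ← pow_mul, ← hcount]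
      rw [h1, hprod (fun i => (α' i : ℂ) / q)]
      have h2 : (s.map fun i => (α' i : ℂ) / q).prod =
          (s.map fun i => (α' i : ℂ)).prod / (q : ℂ) ^ s.card := by
        rw [Multiset.prod_map_div, Multiset.map_const', Multiset.prod_replicate]
      rw [h2, div_pow, hrel]
      exact div_self (pow_ne_zero _ (pow_ne_zero _ hq0)))
  refine ⟨univ.filter (fun i => Odd ((s.count i / g : ℕ) : ℤ)), ?_, ?_, ?_, hV⟩
  · by_contra hemp
    rw [Finset.not_nonempty_iff_eq_empty] at hemp
    have h2 : 2 ∣ univ.gcd (fun i => s.count i / g) := by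
      refine Finset.dvd_gcd fun i _ => ?_
      have h3 : i ∉ univ.filter (fun i => Odd ((s.count i / g : ℕ) : ℤ)) := by
        rw [hemp]
        exact notMem_empty i
      rw [mem_filter, not_and] at h3
      have h4 := h3 (mem_univ i)
      rw [Int.not_odd_iff_even, Int.even_coe_nat] at h4
      exact h4.two_dvd
    rw [hgcd] at h2
    exact absurd h2 (by decide)
  · refine le_trans (card_le_card ?_) (Multiset.toFinset_card_le s)
    intro i hi
    rw [mem_filter] at hi
    rw [Multiset.mem_toFinset]
    by_contra h3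
    rw [Multiset.count_eq_zero_of_notMem h3, Nat.zero_div] at hi
    exact absurd hi.2 (by decide)
  · have hmem : ∀ i ∈ univ.filter (fun i => Odd ((s.count i / g : ℕ) : ℤ)), i ∈ s := by
      intro i hi
      rw [mem_filter] at hi
      by_contra h3
      rw [Multiset.count_eq_zero_of_notMem h3, Nat.zero_div] at hi
      exact absurd hi.2 (by decide)
    intro i hi j hj
    exact hnp i (hmem i hi) j (hmem j hj)

end Pool.Agent.Work.ES
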